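import Mathlib

/-!
# The add-or-subtract-square game: definitions
-/

namespace Pool.Agent.Helper808.Epstein

/-- The largest perfect square not exceeding `n`. -/
def sq (n : ℕ) : ℕ := Nat.sqrt n ^ 2

/-- `Val true n`: the player to move from `n` can force a win in finitely many moves;
`Val false n`: the player to move from `n` loses in finitely many moves against best play
(at `0` the opponent has just won). The moves are `n → n + sq n` and `n → n - sq n`. -/
inductive Val : Bool → ℕ → Prop
  | zero : Val false 0
  | winAdd (n : ℕ) : 0 < n → Val false (n + sq n) → Val true n
  | winSub (n : ℕ) : 0 < n → Val false (n - sq n) → Val true n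
  | loss (n : ℕ) : 0 < n → Val true (n + sq n) → Val true (n - sq n) → Val false n

/-- The position `n` is a win for the player to move. -/
def Win (n : ℕ) : Prop := Val true n

/-- The position `n` is a loss for the player to move. -/
def Loss (n : ℕ) : Prop := Val false n

/-- The position `n ≥ 1` is a draw: neither a win nor a loss. -/
def Draw (n : ℕ) : Prop := 0 < n ∧ ¬ Win n ∧ ¬ Loss n

end Pool.Agent.Helper808.Epstein
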