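import Mathlib
import Pool.Agent.Helper808.Epstein.Defs

/-!
# The add-or-subtract-square game: decided families
-/

set_option autoImplicit false

namespace Pool.Agent.Helper808.Epstein


namespace JExcl

theorem excl_aux (b : Bool) (n : ℕ) (h : Val b n) : ¬ Val (!b) n := by
  induction h with
  | zero =>
    intro h'
    cases h' with
    | winAdd _ h1 _ => exact absurd h1 (lt_irrefl 0)
    | winSub _ h1 _ => exact absurd h1 (lt_irrefl 0)
  | winAdd n hn h ih =>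
    intro h'
    cases h' with
    | zero => exact absurd hn (lt_irrefl 0)
    | loss _ h1 h2 h3 => exact ih h2
  | winSub n hn h ih =>
    intro h'
    cases h' with
    | zero => exact absurd hn (lt_irrefl 0)
    | loss _ h1 h2 h3 => exact ih h3
  | loss n hn h1 h2 ih1 ih2 =>
    intro h'
    cases h' with
    | winAdd _ _ h3 => exact ih1 h3
    | winSub _ _ h3 => exact ih2 h3

theorem excl (n : ℕ) : ¬ (Win n ∧ Loss n) := by
  rintro ⟨h1, h2⟩
  exact excl_aux true n h1 h2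

end JExcl


namespace JRules

theorem sq_add (k a : ℕ) (ha : a ≤ 2 * k) : sq (k ^ 2 + a) = k ^ 2 := by
  unfold sq
  have h : Nat.sqrt (k ^ 2 + a) = k := by
    rw [pow_two]
    exact Nat.sqrt_add_eq k (by omega)
  rw [h]

theorem win_sq (k : ℕ) (hk : 0 < k) : Win (k ^ 2) := by
  refine Val.winSub (k ^ 2) (by positivity) ?_
  have h := sq_add k 0 (by omega)
  rw [Nat.add_zero] at h
  rw [h, Nat.sub_self]
  exact Val.zero

theorem no23 (excl : ∀ n, ¬ (Win n ∧ Loss n)) : ∀ b n, Val b n → n ≠ 2 ∧ n ≠ 3 := by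
  have s2 : sq 2 = 1 := by
    have := sq_add 1 1 (by omega)
    simpa using this
  have s3 : sq 3 = 1 := by
    have := sq_add 1 2 (by omega)
    simpa using this
  intro b n h
  induction h with
  | zero => exact ⟨by omega, by omega⟩
  | winAdd n hn h ih =>
    refine ⟨?_, ?_⟩
    · rintro rfl
      rw [s2] at ih
      exact ih.2 rfl
    · rintro rfl
      rw [s3] at h
      exact excl 4 ⟨win_sq 2 (by omega), h⟩
  | winSub n hn h ih =>
    refine ⟨?_, ?_⟩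
    · rintro rfl
      rw [s2] at h
      exact excl 1 ⟨win_sq 1 (by omega), h⟩
    · rintro rfl
      rw [s3] at ih
      exact ih.1 rfl
  | loss n hn h1 h2 ih1 ih2 =>
    refine ⟨?_, ?_⟩
    · rintro rfl
      rw [s2] at ih1
      exact ih1.2 rfl
    · rintro rfl
      rw [s3] at ih2
      exact ih2.1 rfl

theorem not_loss (n : ℕ) (hn : 0 < n) (hd : Draw (n - sq n)) : ¬ Loss n := by
  intro h
  cases h with
  | zero => omega
  | loss _ _ h1 h2 => exact hd.2.1 h2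

theorem rules (excl : ∀ n, ¬ (Win n ∧ Loss n)) :
    Draw 2 ∧ Draw 3 ∧
    (∀ n, 0 < n → Draw (n - sq n) → ¬ Loss (n + sq n) → Draw n) ∧
    (∀ n, 0 < n → Draw (n - sq n) → ¬ Loss n) ∧
    (∀ k a, a ≤ 2 * k → sq (k ^ 2 + a) = k ^ 2) ∧
    (∀ k, 0 < k → Win (k ^ 2)) := by
  refine ⟨⟨by omega, fun h => (no23 excl _ _ h).1 rfl, fun h => (no23 excl _ _ h).1 rfl⟩,
    ⟨by omega, fun h => (no23 excl _ _ h).2 rfl, fun h => (no23 excl _ _ h).2 rfl⟩,
    ?_, not_loss, sq_add, win_sq⟩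
  intro n hn hd hl
  refine ⟨hn, ?_, not_loss n hn hd⟩
  intro h
  cases h with
  | winAdd _ _ h1 => exact hl h1
  | winSub _ _ h1 => exact hd.2.2 h1

end JRules


namespace JFam

theorem fam (excl : ∀ n, ¬ (Win n ∧ Loss n))
    (rules : Draw 2 ∧ Draw 3 ∧
      (∀ n, 0 < n → Draw (n - sq n) → ¬ Loss (n + sq n) → Draw n) ∧
      (∀ n, 0 < n → Draw (n - sq n) → ¬ Loss n) ∧
      (∀ k a, a ≤ 2 * k → sq (k ^ 2 + a) = k ^ 2) ∧
      (∀ k, 0 < k → Win (k ^ 2))) :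
    (∀ a b k m : ℕ, Draw a → Draw b → a ≤ 2 * k → b ≤ 2 * m → 2 * k ^ 2 + a = m ^ 2 + b →
      Draw (k ^ 2 + a)) ∧
    (∀ c k m : ℕ, 0 < c → c ^ 2 ≤ 2 * k → 2 * k ^ 2 + c ^ 2 = m ^ 2 → Loss (k ^ 2 + c ^ 2)) ∧
    (∀ a k : ℕ, Loss a → a ≤ 2 * k → 0 < k → Win (k ^ 2 + a)) := by
  obtain ⟨-, -, r3, r4, r5, r6⟩ := rules
  refine ⟨?_, ?_, ?_⟩
  · intro a b k m ha hb hak hbm he
    have ha0 : 0 < a := ha.1
    have hb0 : 0 < b := hb.1
    have h1 : sq (k ^ 2 + a) = k ^ 2 := r5 k a hak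
    have h2 : sq (m ^ 2 + b) = m ^ 2 := r5 m b hbm
    refine r3 (k ^ 2 + a) (by omega) ?_ ?_
    · rw [h1, Nat.add_sub_cancel_left]
      exact ha
    · rw [h1]
      have e : k ^ 2 + a + k ^ 2 = m ^ 2 + b := by omega
      rw [e]
      refine r4 (m ^ 2 + b) (by omega) ?_
      rw [h2, Nat.add_sub_cancel_left]
      exact hb
  · intro c k m hc hck he
    have hc2 : 0 < c ^ 2 := by positivity
    have h1 : sq (k ^ 2 + c ^ 2) = k ^ 2 := r5 k (c ^ 2) hck
    have hm : 0 < m := by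
      rcases Nat.eq_zero_or_pos m with h | h
      · rw [h] at he
        simp at he
        omega
      · exact h
    refine Val.loss (k ^ 2 + c ^ 2) (by omega) ?_ ?_
    · rw [h1]
      have e : k ^ 2 + c ^ 2 + k ^ 2 = m ^ 2 := by omega
      rw [e]
      exact r6 m hm
    · rw [h1, Nat.add_sub_cancel_left]
      exact r6 c hc
  · intro a k ha hak hk
    have hk2 : 0 < k ^ 2 := by positivity
    have h1 : sq (k ^ 2 + a) = k ^ 2 := r5 k a hak
    refine Val.winSub (k ^ 2 + a) (by omega) ?_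
    rw [h1, Nat.add_sub_cancel_left]
    exact ha

end JFam


namespace JPell

theorem pell : (∀ N : ℕ, ∃ k m : ℕ, N < k ∧ 2 * k ^ 2 + 2 = m ^ 2 + 3) ∧
    (∀ N : ℕ, ∃ k m : ℕ, N < k ∧ 2 * k ^ 2 + 1 ^ 2 = m ^ 2) := by
  constructor
  · intro N
    induction N with
    | zero => exact ⟨5, 7, by norm_num, by norm_num⟩
    | succ N ih =>
      obtain ⟨k, m, hk, hm⟩ := ih
      refine ⟨3 * k + 2 * m, 4 * k + 3 * m, by omega, ?_⟩
      nlinarith [hm]
  · intro N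
    induction N with
    | zero => exact ⟨2, 3, by norm_num, by norm_num⟩
    | succ N ih =>
      obtain ⟨k, m, hk, hm⟩ := ih
      refine ⟨3 * k + 2 * m, 4 * k + 3 * m, by omega, ?_⟩
      nlinarith [hm]

end JPell


theorem excl (n : ℕ) : ¬ (Win n ∧ Loss n) := JExcl.excl n

theorem rules :
    Draw 2 ∧ Draw 3 ∧
    (∀ n, 0 < n → Draw (n - sq n) → ¬ Loss (n + sq n) → Draw n) ∧
    (∀ n, 0 < n → Draw (n - sq n) → ¬ Loss n) ∧
    (∀ k a, a ≤ 2 * k → sq (k ^ 2 + a) = k ^ 2) ∧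
    (∀ k, 0 < k → Win (k ^ 2)) := JRules.rules excl

theorem fam :
    (∀ a b k m : ℕ, Draw a → Draw b → a ≤ 2 * k → b ≤ 2 * m → 2 * k ^ 2 + a = m ^ 2 + b →
      Draw (k ^ 2 + a)) ∧
    (∀ c k m : ℕ, 0 < c → c ^ 2 ≤ 2 * k → 2 * k ^ 2 + c ^ 2 = m ^ 2 → Loss (k ^ 2 + c ^ 2)) ∧
    (∀ a k : ℕ, Loss a → a ≤ 2 * k → 0 < k → Win (k ^ 2 + a)) := JFam.fam excl rules

theorem crit (n : ℕ) (hn : 0 < n) (h : Draw (n - sq n)) :
    ¬ Loss n ∧ (Win n ↔ Loss (n + sq n)) := by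
  refine ⟨rules.2.2.2.1 n hn h, ?_, fun h2 => Val.winAdd n hn h2⟩
  intro hw
  by_contra hl
  exact (rules.2.2.1 n hn h hl).2.1 hw

theorem inf_draw : {n : ℕ | Draw n}.Infinite := by
  refine Set.infinite_of_forall_exists_gt fun N => ?_
  obtain ⟨k, m, hk, hm⟩ := JPell.pell.1 (N + 2)
  have hm2 : 2 ≤ m := by nlinarith
  refine ⟨k ^ 2 + 2, fam.1 2 3 k m rules.1 rules.2.1 (by omega) (by omega) (by omega), ?_⟩
  nlinarith

theorem inf_loss : {n : ℕ | Loss n}.Infinite := by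
  refine Set.infinite_of_forall_exists_gt fun N => ?_
  obtain ⟨k, m, hk, hm⟩ := JPell.pell.2 (N + 2)
  refine ⟨k ^ 2 + 1 ^ 2, fam.2.1 1 k m one_pos (by omega) hm, ?_⟩
  nlinarith

theorem inf_win : {n : ℕ | Win n ∧ ¬ IsSquare n}.Infinite := by
  have h5 : Loss 5 := by
    have := fam.2.1 1 2 3 one_pos (by norm_num) (by norm_num)
    simpa using this
  refine Set.infinite_of_forall_exists_gt fun N => ?_
  refine ⟨(N + 3) ^ 2 + 5, ⟨fam.2.2 5 (N + 3) h5 (by omega) (by omega), ?_⟩, by nlinarith⟩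
  rintro ⟨t, ht⟩
  have h1 : N + 3 < t := by nlinarith
  have h2 : t < N + 4 := by nlinarith
  omega

end Pool.Agent.Helper808.Epstein
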